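import Pool.Agent.H71.AL.Targets

/-!
LIN: the topological Vaught conjecture for conjugation of sequences of homeomorphisms of the line.
-/

set_option autoImplicit false

open Set
open Pool.Agent.AL

namespace Pool.Agent.H99.ALV

theorem rs_inj {h h' : ℕ → ℝ ≃ₜ ℝ} (e : rs h = rs h') : h = h' := by
  funext k
  have h1 : (h k : ℝ → ℝ) = h' k := by
    refine (Rat.denseRange_cast (𝕜 := ℝ)).equalizer (h k).continuous (h' k).continuous ?_
    funext q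
    exact congrFun (congrFun e k) q
  exact Homeomorph.ext fun x => congrFun h1 x

/-- the inverse of a strictly monotone bijection is monotone -/
theorem mt_of {y : Y} (hl : Ln y) {f g : ℕ → ℕ} (hfg : ∀ m, f (g m) = m) :
    (Inc (lt y) f → ∀ a b, lt y a b → lt y (g a) (g b)) ∧
    (Dec (lt y) f → ∀ a b, lt y a b → lt y (g b) (g a)) := by
  obtain ⟨l1, l2, l3⟩ := hl
  constructor
  · intro hf a b hab
    have hne : g a ≠ g b := by
      intro h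
      have : a = b := by rw [← hfg a, h, hfg b]
      rw [this] at hab
      exact l1 b hab
    rcases l2 _ _ hne with h | h
    · exact h
    · have := hf _ _ h
      rw [hfg, hfg] at this
      exact absurd (l3 _ _ _ hab this) (l1 a)
  · intro hf a b hab
    have hne : g a ≠ g b := by
      intro h
      have : a = b := by rw [← hfg a, h, hfg b]
      rw [this] at hab
      exact l1 b hab
    rcases l2 _ _ hne with h | h
    · have := hf _ _ h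
      rw [hfg, hfg] at this
      exact absurd (l3 _ _ _ hab this) (l1 a)
    · exact h

theorem mono_of {y : Y} (hy : DL y) (k : ℕ) : Mt y (y.2 k) := by
  obtain ⟨j, rfl | rfl⟩ := Nat.even_or_odd' k
  · rcases hy.mono j with h | h
    · exact Or.inl fun a b hab => Or.inr (h a b hab)
    · exact Or.inr fun a b hab => Or.inr (h a b hab)
  · have hi : ∀ m, y.2 (2 * j) (y.2 (2 * j + 1) m) = m := fun m => (hy.inv j m).2
    rcases hy.mono j with h | h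
    · exact Or.inl fun a b hab => Or.inr ((mt_of hy.ln hi).1 h a b hab)
    · exact Or.inr fun a b hab => Or.inr ((mt_of hy.ln hi).2 h a b hab)

theorem pf_LIN (hT : T_TRN) (hM : T_MES) (hM1 : T_MCD) (hR : T_REA) (hH : T_HOM) (hC : T_COD)
    (hJ : T_CNJ) (hI : T_CIV) : T_LIN := by
  intro B hB hinv
  obtain ⟨R, hRd⟩ : ∃ R : Set (Y × ((ℕ → ℚ → ℝ) × (ℕ → ℝ))),
      R = {q | Cy q.1 ∧ Em (lt q.1) q.2.2 ∧ Cd q.1 q.2.1 q.2.2} := ⟨_, rfl⟩
  have hmem : ∀ (y : Y) (z : (ℕ → ℚ → ℝ) × (ℕ → ℝ)), (y, z) ∈ R ↔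
      Cy y ∧ Em (lt y) z.2 ∧ Cd y z.1 z.2 := fun y z => by rw [hRd]; rfl
  have hrs : ∀ (y : Y) (z : (ℕ → ℚ → ℝ) × (ℕ → ℝ)), (y, z) ∈ R → ∃ h, z.1 = rs h := by
    intro y z hz
    obtain ⟨h1, h2, h3⟩ := (hmem y z).1 hz
    obtain ⟨h, -, -, hh⟩ := hH y z.2 h1.1 h2
    exact ⟨h, (hh z.1).1 h3⟩
  have hdom : ∀ y : Y, Cy y → ∃ z, (y, z) ∈ R := by
    intro y hy
    obtain ⟨e, he⟩ := hR y hy.1
    obtain ⟨h, -, -, hh⟩ := hH y e hy.1 he
    exact ⟨(rs h, e), (hmem _ _).2 ⟨hy, he, (hh (rs h)).2 rfl⟩⟩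
  have hRm : MeasurableSet R := by
    have e : R = Prod.fst ⁻¹' {y : Y | Cy y} ∩ {p : Y × ((ℕ → ℚ → ℝ) × (ℕ → ℝ)) |
        Em (lt p.1) p.2.2 ∧ Cd p.1 p.2.1 p.2.2} := hRd
    rw [e]
    exact (measurable_fst hM).inter hM1
  have hdm : MeasurableSet {y : Y | ∃ z, (y, z) ∈ R} := by
    have e : {y : Y | ∃ z, (y, z) ∈ R} = {y : Y | Cy y} := by
      ext y
      exact ⟨fun ⟨z, hz⟩ => ((hmem y z).1 hz).1, fun hy => hdom y hy⟩
    rw [e]
    exact hM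
  have g1 : ∀ r ∈ R, Ln r.1 ∧ ∀ k, Mt r.1 (r.1.2 k) := by
    intro r hr
    have h1 := ((hmem r.1 r.2).1 hr).1
    exact ⟨h1.1.ln, mono_of h1.1⟩
  have g2 : ∀ r ∈ R, ∀ y, Iso r.1 y → ∃ z, (y, z) ∈ R := by
    intro r hr y hy
    exact hdom y (hI _ _ hy ((hmem r.1 r.2).1 hr).1)
  have g3 : ∀ r ∈ R, ∀ r' ∈ R, Iso r.1 r'.1 ↔
      ∃ h h', r.2.1 = rs h ∧ r'.2.1 = rs h' ∧ Cj h h' := by
    intro r hr r' hr'
    obtain ⟨a1, a2, a3⟩ := (hmem r.1 r.2).1 hr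
    obtain ⟨b1, b2, b3⟩ := (hmem r'.1 r'.2).1 hr'
    constructor
    · intro hiso
      obtain ⟨h, hh⟩ := hrs _ _ hr
      obtain ⟨h', hh'⟩ := hrs _ _ hr'
      refine ⟨h, h', hh, hh', ?_⟩
      rw [hh] at a3
      rw [hh'] at b3
      exact (hJ _ _ _ _ h h' a1 b1 a2 b2 a3 b3).1 hiso
    · rintro ⟨h, h', hh, hh', hc⟩
      rw [hh] at a3
      rw [hh'] at b3
      exact (hJ _ _ _ _ h h' a1 b1 a2 b2 a3 b3).2 hc
  have g4 : ∀ r ∈ R, ∀ r' ∈ R, (∃ h h', r.2.1 = rs h ∧ r'.2.1 = rs h' ∧ Cj h h') →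
      r.2.1 ∈ B → r'.2.1 ∈ B := by
    rintro r hr r' hr' ⟨h, h', hh, hh', hc⟩ hrB
    rw [hh']
    rw [hh] at hrB
    exact hinv h h' hc hrB
  rcases hT ((ℕ → ℚ → ℝ) × (ℕ → ℝ)) (ℕ → ℚ → ℝ) R Prod.fst B
    (fun z z' => ∃ h h', z.1 = rs h ∧ z'.1 = rs h' ∧ Cj h h') hRm measurable_fst hB hdm
    g1 g2 g3 g4 with ⟨F, hF, hF1, hF2⟩ | ⟨D, hD, hD1, hD2⟩
  · left
    choose h hh using fun u => hrs _ _ (hF1 u).1.choose_spec
    have he : (fun u => rs (h u)) = fun u => (F u).1 := funext fun u => (hh u).symm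
    refine ⟨h, ?_, fun u => ?_, fun u v huv hc => ?_⟩
    · rw [he]
      exact measurable_fst.comp hF
    · rw [← hh u]
      exact (hF1 u).2
    · exact hF2 u v huv ⟨h u, h v, hh u, hh v, hc⟩
  · right
    refine ⟨rs ⁻¹' (Prod.fst '' D), (hD.image _).preimage_of_injOn fun a _ b _ hab => rs_inj hab,
      ?_⟩
    intro h hhB
    obtain ⟨y, e, c1, c2, c3⟩ := hC h
    obtain ⟨z, hz, h1, h1', e1, e2, hc⟩ := hD2 (y, (rs h, e)) ((hmem _ _).2 ⟨c1, c2, c3⟩) hhB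
    refine ⟨h1', ⟨z, hz, e2⟩, ?_⟩
    rw [rs_inj (show rs h = rs h1 from e1)]
    exact hc

end Pool.Agent.H99.ALV
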