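import Pool.Agent.H71.AL.Targets
import Pool.Agent.H71.CC
import Pool.Agent.H59.TV.Smooth

/-!
TRN: the transfer lemma for Borel codings.
-/

set_option autoImplicit false

open Set
open Pool.Agent.AL

namespace Pool.Agent.H99.ALV

theorem iso_refl (y : Y) : Iso y y := ⟨Equiv.refl _, fun _ _ => rfl, fun _ _ => rfl⟩

theorem iso_symm {y z : Y} (h : Iso y z) : Iso z y := by
  obtain ⟨g, h1, h2⟩ := h
  refine ⟨g.symm, fun m n => ?_, fun k m => ?_⟩
  · rw [← h1 (g.symm m) (g.symm n), g.apply_symm_apply, g.apply_symm_apply]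
  · apply g.injective
    rw [g.apply_symm_apply, ← h2 k (g.symm m), g.apply_symm_apply]

theorem iso_trans {x y z : Y} (h : Iso x y) (h' : Iso y z) : Iso x z := by
  obtain ⟨g, h1, h2⟩ := h
  obtain ⟨f, h3, h4⟩ := h'
  refine ⟨g.trans f, fun m n => ?_, fun k m => ?_⟩
  · rw [Equiv.trans_apply, Equiv.trans_apply, h3, h1]
  · rw [Equiv.trans_apply, Equiv.trans_apply, h4, h2]

theorem not_countable_cantor : ¬ (univ : Set (ℕ → Bool)).Countable := by
  intro h
  have h1 : Countable (ℕ → Bool) := Set.countable_univ_iff.1 h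
  obtain ⟨f, hf⟩ := exists_surjective_nat (ℕ → Bool)
  obtain ⟨n, hn⟩ := hf fun n => !(f n n)
  have := congrFun hn n
  cases hb : f n n <;> simp [hb] at this

theorem polishSpace_Y : PolishSpace Y := by
  have h1 : SecondCountableTopology Y := inferInstance
  have h2 : TopologicalSpace.IsCompletelyMetrizableSpace Y := inferInstance
  exact { h1, h2 with }

theorem borelSpace_Y : BorelSpace Y := Prod.borelSpace

theorem pf_TRN (hF : T_FUN) : T_TRN := by
  intro Z V _ _ _ R p A E hR hp hA hdom hmono hiso hE hinv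
  have : PolishSpace Y := polishSpace_Y
  have : BorelSpace Y := borelSpace_Y
  have hR1 : MeasurableSet {q : Y × Z | q ∈ R ∧ p q.2 ∈ A} :=
    hR.inter ((hp.comp measurable_snd) hA)
  have hR2 : MeasurableSet {q : Y × Z | q ∈ R ∧ p q.2 ∉ A} :=
    hR.inter ((hp.comp measurable_snd) hA).compl
  have a1 : MeasureTheory.AnalyticSet {y : Y | ∃ z, (y, z) ∈ {q : Y × Z | q ∈ R ∧ p q.2 ∈ A}} :=
    Pool.Agent.H71.DST.analyticSet_proj hR1
  have a2 : MeasureTheory.AnalyticSet {y : Y | ∃ z, (y, z) ∈ {q : Y × Z | q ∈ R ∧ p q.2 ∉ A}} :=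
    Pool.Agent.H71.DST.analyticSet_proj hR2
  obtain ⟨X, hX⟩ : ∃ X : Set Y, X = {y | ∃ z, (y, z) ∈ R ∧ p z ∈ A} := ⟨_, rfl⟩
  have hXm : MeasurableSet X := by
    refine MeasureTheory.AnalyticSet.measurableSet_of_compl ?_ ?_
    · rw [hX]
      exact a1
    · have e : Xᶜ = {y | ∃ z, (y, z) ∈ R}ᶜ ∪
          {y : Y | ∃ z, (y, z) ∈ {q : Y × Z | q ∈ R ∧ p q.2 ∉ A}} := by
        ext y
        constructor
        · intro hy
          by_cases hz : ∃ z, (y, z) ∈ R
          · right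
            obtain ⟨z, hz⟩ := hz
            refine ⟨z, hz, fun hpz => hy ?_⟩
            rw [hX]
            exact ⟨z, hz, hpz⟩
          · left
            exact hz
        · intro hy hyX
          rw [hX] at hyX
          obtain ⟨z, hz, hpz⟩ := hyX
          rcases hy with hy | ⟨z', hz', hpz'⟩
          · exact hy ⟨z, hz⟩
          · exact hpz' (hinv (y, z) hz (y, z') hz' ((hE (y, z) hz (y, z') hz').1 (iso_refl y)) hpz)
      rw [e, Set.union_eq_iUnion]
      refine MeasureTheory.AnalyticSet.iUnion fun b => ?_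
      cases b
      · exact a2
      · exact hdom.compl.analyticSet
  have hXi : ∀ y ∈ X, ∀ z, Iso y z → z ∈ X := by
    intro y hy y' hyy
    rw [hX] at hy ⊢
    obtain ⟨z, hz, hpz⟩ := hy
    obtain ⟨z', hz'⟩ := hiso (y, z) hz y' hyy
    exact ⟨z', hz', hinv (y, z) hz (y', z') hz' ((hE (y, z) hz (y', z') hz').1 hyy) hpz⟩
  have hXl : ∀ y ∈ X, Ln y ∧ ∀ k, Mt y (y.2 k) := by
    intro y hy
    rw [hX] at hy
    obtain ⟨z, hz, -⟩ := hy
    exact hmono (y, z) hz
  rcases hF X hXm hXi hXl with ⟨F₀, hF₀, hF1, hF2⟩ | ⟨D, hD, hDX⟩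
  · left
    have hQ : MeasurableSet {q : (ℕ → Bool) × Z | (F₀ q.1, q.2) ∈ R ∧ p q.2 ∈ A} := by
      have h1 : Measurable fun q : (ℕ → Bool) × Z => (F₀ q.1, q.2) :=
        (hF₀.comp measurable_fst).prodMk measurable_snd
      exact (h1 hR).inter ((hp.comp measurable_snd) hA)
    have : StandardBorelSpace {q : (ℕ → Bool) × Z | (F₀ q.1, q.2) ∈ R ∧ p q.2 ∈ A} :=
      hQ.standardBorel
    obtain ⟨f, hf, hfΘ⟩ := Pool.Agent.H59.TV.exists_perfect_of_smooth
      (X := {q : (ℕ → Bool) × Z | (F₀ q.1, q.2) ∈ R ∧ p q.2 ∈ A})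
      (fun q => q.1.1) (measurable_fst.comp measurable_subtype_coe) (by
        have e : range (fun q : {q : (ℕ → Bool) × Z | (F₀ q.1, q.2) ∈ R ∧ p q.2 ∈ A} => q.1.1) =
            univ := by
          rw [eq_univ_iff_forall]
          intro u
          have hu := hF1 u
          rw [hX] at hu
          obtain ⟨z, hz, hpz⟩ := hu
          exact ⟨⟨(u, z), hz, hpz⟩, rfl⟩
        rw [e]
        exact not_countable_cantor)
    refine ⟨fun u => (f u).1.2, measurable_snd.comp (measurable_subtype_coe.comp hf),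
      fun u => ⟨⟨F₀ (f u).1.1, (f u).2.1⟩, (f u).2.2⟩, fun u v huv hEuv => ?_⟩
    exact hF2 _ _ (hfΘ u v huv)
      ((hE (F₀ (f u).1.1, (f u).1.2) (f u).2.1 (F₀ (f v).1.1, (f v).1.2) (f v).2.1).2 hEuv)
  · right
    have hch : ∀ d : {d : Y | d ∈ D ∧ ∃ y z, (y, z) ∈ R ∧ p z ∈ A ∧ Iso y d},
        ∃ z, ∃ y, (y, z) ∈ R ∧ p z ∈ A ∧ Iso y d := by
      rintro ⟨d, hd, y, z, h1, h2, h3⟩
      exact ⟨z, y, h1, h2, h3⟩
    choose φ hφ using hch
    have hc : Countable {d : Y | d ∈ D ∧ ∃ y z, (y, z) ∈ R ∧ p z ∈ A ∧ Iso y d} :=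
      (hD.mono fun d hd => hd.1).to_subtype
    refine ⟨range φ, countable_range φ, ?_, ?_⟩
    · rintro z ⟨d, rfl⟩
      obtain ⟨y, h1, h2, -⟩ := hφ d
      exact ⟨⟨y, h1⟩, h2⟩
    · intro r hr hpr
      have hrX : r.1 ∈ X := by
        rw [hX]
        exact ⟨r.2, hr, hpr⟩
      obtain ⟨d, hd, hrd⟩ := hDX r.1 hrX
      obtain ⟨y, h1, h2, h3⟩ := hφ ⟨d, hd, r.1, r.2, hr, hpr, hrd⟩
      refine ⟨_, ⟨⟨d, hd, r.1, r.2, hr, hpr, hrd⟩, rfl⟩, ?_⟩
      exact (hE r hr (y, _) h1).1 (iso_trans hrd (iso_symm h3))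

end Pool.Agent.H99.ALV
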